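import Pool.Agent.Run7.h587.Ad.Ed

/-!
# Enriques surfaces with a Zariski dense set of rational points

Horikawa's description of Enriques surfaces: `X : w² = f(z₁, z₂)`, where `f` has degree at most `4` in
each variable, is an affine open subset of a double cover of `ℙ¹ × ℙ¹` branched along a curve of
bidegree `(4, 4)`, a K3 surface if the curve is smooth. If `f(-1 - z) = f(z)`, then the involution
`ι(z, w) = (-1 - z, -w)` acts on `X`. It has no fixed points if `f` does not vanish at the four points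
fixed by `z ↦ -1 - z`, and then `Y = X / ι` is an Enriques surface. The general complex Enriques surface
is obtained in this way: the polynomials `f` have `13` coefficients, and the surfaces `Y` have `10`
moduli. The question is whether `Y(K)` is Zariski dense if it is not empty.

We work with `n ≥ 1` variables `z = (z₁, …, z_n)`; `n = 2` is the case of Enriques surfaces. `f` is
strongly adapted at `2` if its coefficients are `2`-integral, and if for all the points `(z, w)` of
`X` over `ℚ₂` the coordinates `z_i` are `2`-adic integers, `w` and the partial derivatives `∂f/∂z_i` at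
`z` are units, and the curves of genus one in the directions of the coordinates through the point are
smooth. By (2), all the integral polynomials `f ≡ 3 ∏ (z_i² + z_i + 1)² + ∑ (z_i² + z_i) + 2` modulo `4`
of degree at most `4` in each variable are strongly adapted. (For these `f` the four fixed points are
never on the branch curve.)

Let `K` be a field of characteristic zero with an embedding `σ` in `ℚ₂`, for example `ℚ`, or a number
field with a place of degree one above `2`; let `f` be a polynomial over `K` with `f(-1 - z) = f(z)`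
which is strongly adapted at `2`. Let `U` be the image of `X(ℚ₂)` in `Y(ℚ₂)`, an open and compact
subset. The set `Lifts` is the inverse image of `Y(K)` in `X(ℚ₂)`: the points of `X` over `ℚ₂` at which
all the `ι`-invariant polynomial functions with coefficients in `K`, so all the regular functions on
`Y` over `K`, have values in `K`. It contains the images of the points over `K` of `X`, but also those
of the twists of `X` by the elements of `K` which are squares in `ℚ₂`.

(1) The closure of `Lifts` in `X(ℚ₂)` is the set of all the points with `z` congruent modulo `8` to `z(P)`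
for some `P` in `Lifts`; so the closure of `Y(K) ∩ U` is open. If `Y(K)` meets `U`, then `Y(K)` is Zariski
dense: each polynomial over `ℚ₂` which vanishes at the points of `Lifts` in some neighbourhood of a
point of `Lifts` is divisible by `w² - f`. So the answer to the question is positive for all these
surfaces, if the given rational point is in `U`.

(3) For each member `f₀` of the class in (2) with `f₀(-1 - z) = f₀(z)` in two variables, given by integral
parameters, and each `M` there is such a member `f` congruent to `f₀` modulo `2^M` for which `X(ℚ)`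
is dense in `X(ℚ₂)`. So `Y(ℚ)` is Zariski dense, and dense in `U`.

(4) The parameters of these members are Zariski dense in the space of all the `13` parameters, so the
Enriques surfaces over `ℚ` of this kind are Zariski dense in the family of all the Enriques surfaces
`Y`, with `10` moduli.

(5) An example is `f = 3 (u₁ + 1)² (u₂ + 1)² + 8 u₁ u₂ (u₁ + u₂ - 12) + u₁ + u₂ + 10`,
`u_i = z_i² + z_i`.

Idea of the proof. Let `P = (z, w)` be a point of `Lifts`, `d = w²`. In the coordinates `s_i` with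
`z_i = w s_i + (w - 1) / 2` the twist of `X` by `d` is defined over `K` by a polynomial which is
again strongly adapted, since `w` is a `2`-adic unit, and `s(P)` is a point over `K`. So one can use the
theorem of `ResiduesModEight` (for `MP_ed3816_nt`): on a strongly adapted variety, one can move a
`K`-point `P` to points over `K` near all the `ℚ₂`-points with `z` congruent to `z(P)` modulo `8`, by adding
multiples of `(z, w) - (z, -w)` on the curves of genus one. For (3) there are at most `8` orbits of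
residue classes modulo `8` under `ι`, and `13` coefficients; one chooses integral points in the classes
one after the other, and changes `f` by invariant polynomials which vanish at the previous points.
-/

set_option autoImplicit false

namespace Pool.Agent.Results.MP_521e5f_ag.EnriquesAtTwo

open MvPolynomial Pool.Agent.Run7.h587.Ad

/-- The polynomial `q(t) = F(z + t e_i)`. -/
noncomputable def line {K : Type} [Field K] {n : ℕ} (F : MvPolynomial (Fin n) K) (z : Fin n → K)
    (i : Fin n) : Polynomial K :=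
  aeval (fun k => Polynomial.C (z k) + Polynomial.C ((Pi.single i 1 : Fin n → K) k) *
    Polynomial.X) F

/-- The Jacobian of the curve `y² = q(t)`, where `q` is a polynomial of degree at most `4`. The curve
is smooth of genus one if the discriminant of the Jacobian is not zero. -/
noncomputable def jacobian {K : Type} [Field K] (q : Polynomial K) : WeierstrassCurve K :=
  ⟨0, q.coeff 2, 0, q.coeff 1 * q.coeff 3 - 4 * q.coeff 0 * q.coeff 4,
    q.coeff 1 ^ 2 * q.coeff 4 + q.coeff 0 * q.coeff 3 ^ 2 - 4 * q.coeff 0 * q.coeff 2 * q.coeff 4⟩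

/-- `F` is strongly adapted: the degree in each variable is at most `4`, the coefficients are
integral, and at all the points of `w² = F(z)` over `ℚ₂` the coordinates `z_i` are integral, `w` and
the partial derivatives are units, and the curves in the directions of the coordinates are
smooth. -/
def StronglyAdapted {n : ℕ} (F : MvPolynomial (Fin n) ℚ_[2]) : Prop :=
  (∀ i, F.degreeOf i ≤ 4) ∧ (∀ m, ‖F.coeff m‖ ≤ 1) ∧
  ∀ (z : Fin n → ℚ_[2]) (w : ℚ_[2]), w ^ 2 = eval z F → ‖w‖ = 1 ∧
    ∀ i, ‖z i‖ ≤ 1 ∧ ‖eval z (pderiv i F)‖ = 1 ∧ (jacobian (line F z i)).Δ ≠ 0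

/-- `f(-1 - z) = f(z)`. -/
def Invariant {R : Type} [CommRing R] {n : ℕ} (f : MvPolynomial (Fin n) R) : Prop :=
  ∀ z : Fin n → R, eval (fun i => -1 - z i) f = eval z f

/-- The points `(z, w)` of the variety `w² = F(z)`. -/
def points {K : Type} [Field K] {n : ℕ} (F : MvPolynomial (Fin n) K) : Set ((Fin n → K) × K) :=
  {P | P.2 ^ 2 = eval P.1 F}

/-- The value at `(z, w)` of a polynomial in the variables `z_i` (number `some i`) and `w` (number
`none`). -/
noncomputable def value {K : Type} [Field K] {n : ℕ} (h : MvPolynomial (Option (Fin n)) K)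
    (P : (Fin n → K) × K) : K :=
  eval (fun o => o.elim P.2 P.1) h

/-- The class of `P` modulo `ι` is rational over `K`: all the `ι`-invariant polynomials over `K` in
`z` and `w` have values in `K` at `P`. -/
def RationalClass {K : Type} [Field K] {n : ℕ} (σ : K →+* ℚ_[2])
    (P : (Fin n → ℚ_[2]) × ℚ_[2]) : Prop :=
  ∀ h : MvPolynomial (Option (Fin n)) K,
    (∀ (z : Fin n → K) (w : K), value h (fun i => -1 - z i, -w) = value h (z, w)) →
    ∃ c : K, σ c = value (map σ h) P

/-- The inverse image in `X(ℚ₂)` of the set of the `K`-points of `Y = X / ι`. -/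
def Lifts {K : Type} [Field K] {n : ℕ} (σ : K →+* ℚ_[2]) (f : MvPolynomial (Fin n) K) :
    Set ((Fin n → ℚ_[2]) × ℚ_[2]) :=
  {P | P ∈ points (map σ f) ∧ RationalClass σ P}

/-- The polynomials `3 ∏ (z_i² + z_i + 1)² + ∑ (z_i² + z_i) + 2 + 4 g`. -/
noncomputable def member {n : ℕ} (g : MvPolynomial (Fin n) ℤ) : MvPolynomial (Fin n) ℤ :=
  3 * ∏ i, (X i ^ 2 + X i + 1) ^ 2 + ∑ i, (X i ^ 2 + X i) + 2 + 4 * g

/-- The invariant polynomial with the parameters `c`: `a(u) + (2 z₁ + 1) (2 z₂ + 1) b(u)`,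
`u_i = z_i² + z_i`, where `a` is of degree at most `2`, and `b` of degree at most `1` in `u₁` and in
`u₂`. -/
noncomputable def invariantPoly (c : (Fin 3 × Fin 3) ⊕ (Fin 2 × Fin 2) → ℤ) :
    MvPolynomial (Fin 2) ℤ :=
  ∑ e : Fin 3 × Fin 3, C (c (.inl e)) *
      ((X 0 ^ 2 + X 0) ^ (e.1 : ℕ) * (X 1 ^ 2 + X 1) ^ (e.2 : ℕ)) +
    ∑ e : Fin 2 × Fin 2, C (c (.inr e)) * ((2 * X 0 + 1) * (2 * X 1 + 1) *
      ((X 0 ^ 2 + X 0) ^ (e.1 : ℕ) * (X 1 ^ 2 + X 1) ^ (e.2 : ℕ)))

/-- The set `X(ℚ)` is not empty, and it is dense in `X(ℚ₂)`. -/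
def DenseAtTwo {n : ℕ} (f : MvPolynomial (Fin n) ℤ) : Prop :=
  (points (map (Int.castRingHom ℚ) f)).Nonempty ∧
  points (map (Int.castRingHom ℚ_[2]) f) ⊆
    closure {S | ∃ P ∈ points (map (Int.castRingHom ℚ) f),
      S = (fun j => ((P.1 j : ℚ) : ℚ_[2]), ((P.2 : ℚ) : ℚ_[2]))}

/-- The example: `3 (u₁ + 1)² (u₂ + 1)² + 8 u₁ u₂ (u₁ + u₂ - 12) + u₁ + u₂ + 10`, where
`u_i = z_i² + z_i`. -/
noncomputable def exampleEnriques : MvPolynomial (Fin 2) ℤ :=
  3 * (X 0 ^ 2 + X 0 + 1) ^ 2 * (X 1 ^ 2 + X 1 + 1) ^ 2 +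
    8 * (X 0 ^ 2 + X 0) * (X 1 ^ 2 + X 1) * (X 0 ^ 2 + X 0 + (X 1 ^ 2 + X 1) - 12) +
    (X 0 ^ 2 + X 0) + (X 1 ^ 2 + X 1) + 10

/-! ### comparison with the helper files -/

section aux

variable {K : Type} [Field K] [CharZero K] {n : ℕ} {f : MvPolynomial (Fin n) K}

lemma adapted_iff (F : MvPolynomial (Fin n) ℚ_[2]) (h : StronglyAdapted F) :
    Pool.Agent.Run7.h587.Ad.Adapted F ∧ Unit2 F := by
  refine ⟨(adT_iff _).1 ⟨h.1, h.2.1, fun z w hw => ?_⟩, fun z w hw => ?_⟩
  · obtain ⟨h1, h2⟩ := h.2.2 z w hw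
    refine ⟨?_, fun i => ⟨(h2 i).1, ?_, (h2 i).2.2⟩⟩
    · rintro rfl
      rw [norm_zero] at h1
      exact zero_ne_one h1
    · rw [(h2 i).2.1, norm_mul, n2, h1]
      norm_num
  · obtain ⟨h1, h2⟩ := h.2.2 z w hw
    exact ⟨h1, fun i => (h2 i).2.1⟩

lemma strongly_of {F : MvPolynomial (Fin n) ℚ_[2]} (h : Pool.Agent.Run7.h587.Ad.Adapted F)
    (hu : Unit2 F) : StronglyAdapted F := by
  have h' := (adT_iff _).2 h
  refine ⟨h.1, h.2.1, fun z w hw => ⟨(hu z w hw).1, fun i => ⟨?_, (hu z w hw).2 i, ?_⟩⟩⟩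
  · exact ((h.2.2 z w hw).2 i).1
  · exact ((h'.2.2 z w hw).2 i).2.2

lemma inv_iff (h : Invariant f) : sub (-1) (-1) f = f := by
  apply MvPolynomial.funext
  intro z
  rw [sub_eval, ← h z]
  congr 2
  funext i
  ring

lemma lifts_eq {σ : K →+* ℚ_[2]} (hu : Unit2 (f.map σ)) : Lifts σ f = Lf σ f := by
  ext P
  constructor
  · rintro ⟨h1, h2⟩
    have h0 : P.2 ≠ 0 := by
      intro h0
      have := (hu P.1 P.2 h1).1
      rw [h0, norm_zero] at this
      exact zero_ne_one this
    exact (rc_iff h1 h0).1 h2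
  · intro h
    have h1 := h.1
    have h0 : P.2 ≠ 0 := by
      intro h0
      have := (hu P.1 P.2 h1).1
      rw [h0, norm_zero] at this
      exact zero_ne_one this
    exact ⟨h1, (rc_iff h1 h0).2 h⟩

lemma poly_eq (c : (Fin 3 × Fin 3) ⊕ (Fin 2 × Fin 2) → ℤ) : invariantPoly c = Gi c := by
  unfold invariantPoly Gi
  rw [Fintype.sum_sum_type]
  rfl

lemma dense_of_cl {f : MvPolynomial (Fin n) ℤ} {g : MvPolynomial (Fin n) ℤ}
    (hm : ∀ (R : Type) [CommRing R], map (Int.castRingHom R) f = fc R g)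
    (hne : ∃ S : (Fin n → ℚ_[2]) × ℚ_[2], Pool.Agent.Q35.ZC.OnCover (fc ℚ_[2] g) S)
    (h : ∀ S : (Fin n → ℚ_[2]) × ℚ_[2], Pool.Agent.Q35.ZC.OnCover (fc ℚ_[2] g) S →
      S ∈ closure (ImR {P : (Fin n → ℚ) × ℚ | Pool.Agent.Q35.ZC.OnCover (fc ℚ g) P}
        (algebraMap ℚ ℚ_[2]))) : DenseAtTwo f := by
  unfold DenseAtTwo
  rw [hm, hm]
  refine ⟨?_, fun S hS => ?_⟩
  · obtain ⟨S, hS⟩ := hne
    obtain ⟨_, P, hP, -⟩ := closure_nonempty_iff.1 ⟨S, h S hS⟩
    exact ⟨P, hP⟩
  refine closure_mono ?_ (h S hS)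
  rintro _ ⟨P, hP, rfl⟩
  refine ⟨P, hP, ?_⟩
  unfold Pool.Agent.Q35.ZC.image
  simp only [eq_ratCast]

end aux

/-- **Enriques surfaces at the place two.** -/
theorem result :
    (∀ (K : Type) [Field K] [CharZero K] (σ : K →+* ℚ_[2]) (n : ℕ) (f : MvPolynomial (Fin n) K),
      n ≠ 0 → Invariant f → StronglyAdapted (map σ f) →
      -- (1) the closure of the inverse image of `Y(K)`
      closure (Lifts σ f) = {S | S ∈ points (map σ f) ∧
        ∃ P ∈ Lifts σ f, ∀ i, ‖S.1 i - P.1 i‖ ≤ 1 / 8} ∧
      -- Zariski density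
      ∀ P ∈ Lifts σ f, ∀ V ∈ nhds P, ∀ g : MvPolynomial (Option (Fin n)) ℚ_[2],
        (∀ S ∈ Lifts σ f, S ∈ V → value g S = 0) →
          (X none ^ 2 - rename some (map σ f)) ∣ g) ∧
    -- (2) the residue class modulo 4
    (∀ (n : ℕ) (g : MvPolynomial (Fin n) ℤ), (∀ i, g.degreeOf i ≤ 4) →
      StronglyAdapted (map (Int.castRingHom ℚ_[2]) (member g))) ∧
    -- (3) surfaces with many rational points near all the surfaces of the class
    (∀ (c₀ : (Fin 3 × Fin 3) ⊕ (Fin 2 × Fin 2) → ℤ) (M : ℕ),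
      ∃ c : (Fin 3 × Fin 3) ⊕ (Fin 2 × Fin 2) → ℤ, (∀ e, (2 : ℤ) ^ M ∣ c e - c₀ e) ∧
        (∀ i, (invariantPoly c).degreeOf i ≤ 4) ∧ Invariant (member (invariantPoly c)) ∧
        DenseAtTwo (member (invariantPoly c))) ∧
    -- (4) they are Zariski dense
    (∀ P : MvPolynomial ((Fin 3 × Fin 3) ⊕ (Fin 2 × Fin 2)) ℂ, P ≠ 0 →
      ∃ c : (Fin 3 × Fin 3) ⊕ (Fin 2 × Fin 2) → ℤ, eval (fun e => (c e : ℂ)) P ≠ 0 ∧
        (∀ i, (invariantPoly c).degreeOf i ≤ 4) ∧ Invariant (member (invariantPoly c)) ∧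
        DenseAtTwo (member (invariantPoly c))) ∧
    -- (5) an example
    Invariant exampleEnriques ∧ DenseAtTwo exampleEnriques := by
  have hm : ∀ (n : ℕ) (g : MvPolynomial (Fin n) ℤ) (R : Type) [CommRing R],
      map (Int.castRingHom R) (member g) = fc R g := fun n g R _ => mem_map R g
  have hinv : ∀ c, Invariant (member (invariantPoly c)) := by
    intro c z
    rw [poly_eq]
    exact Gi_inv c z
  have hdeg : ∀ c, ∀ i, (invariantPoly c).degreeOf i ≤ 4 := by
    intro c i
    rw [poly_eq]
    exact Gi_deg c i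
  have h3 : ∀ (c₀ : (Fin 3 × Fin 3) ⊕ (Fin 2 × Fin 2) → ℤ) (M : ℕ),
      ∃ c : (Fin 3 × Fin 3) ⊕ (Fin 2 × Fin 2) → ℤ, (∀ e, (2 : ℤ) ^ (M + 1) ∣ c e - c₀ e) ∧
        DenseAtTwo (member (invariantPoly c)) := by
    intro c₀ M
    obtain ⟨c, h1, h2⟩ := dense_i c₀ M
    refine ⟨c, h1, dense_of_cl (g := Gi c) (fun R _ => ?_) (on_exists _) h2⟩
    rw [hm, poly_eq]
  refine ⟨fun K _ _ σ n f hn hi hf => ?_, fun n g hg => ?_, fun c₀ M => ?_, fun P hP => ?_,
    fun z => ?_, ?_⟩
  · obtain ⟨hf', hu⟩ := adapted_iff _ hf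
    rw [lifts_eq hu]
    refine ⟨lf_closure hn (inv_iff hi) hf' hu, fun P hP V hV g hg => ?_⟩
    exact lf_zar hn (inv_iff hi) hf' hu hP hV hg
  · rw [hm]
    exact strongly_of (cls_adapted hg) (cls_unit hg)
  · obtain ⟨c, h1, h2⟩ := h3 c₀ M
    exact ⟨c, fun e => (pow_dvd_pow 2 (Nat.le_succ M)).trans (h1 e), hdeg c, hinv c, h2⟩
  · obtain ⟨c₀, M, h1⟩ := zar_dense hP
    obtain ⟨c, h2, h3⟩ := h3 c₀ M
    exact ⟨c, h1 c h2, hdeg c, hinv c, h3⟩
  · simp only [exampleEnriques, map_add, map_mul, map_pow, map_sub, map_one, map_ofNat, eval_X]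
    ring
  · have he : exampleEnriques = member gex := by
      unfold exampleEnriques member gex uu
      rw [Fin.prod_univ_two, Fin.sum_univ_two]
      ring
    refine dense_of_cl (g := gex) (fun R _ => ?_) (on_exists _) fun S hS => ex_dense hS
    rw [he, hm]

end Pool.Agent.Results.MP_521e5f_ag.EnriquesAtTwo
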